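import Pool.Agent.Helper97.TI.Defs

/-!
Module AIN of MP_17e24e_ag: algebraic independence and finiteness from integrality.
-/

set_option autoImplicit false
open MvPolynomial

namespace TI

section DUAL

variable {K : Type} [Field K] [Algebra ℂ K]

/-- AIN: algebraic independence and finiteness from integrality -/
theorem algInd_of_int {κ n : ℕ} [Algebra (RR κ) K] [IsScalarTower ℂ (RR κ) K]
    (hfrac : ∀ f : K, ∃ a b : RR κ, algebraMap (RR κ) K b ≠ 0 ∧
      f = algebraMap (RR κ) K a / algebraMap (RR κ) K b)
    (x : Fin n → K) (hx : IsTranscendenceBasis ℂ x) (c : Fin n → RR κ)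
    (hint : ∀ a : RR κ, IsIntegral (Algebra.adjoin ℂ
      (Set.range fun j => algebraMap (RR κ) K (c j))) (algebraMap (RR κ) K a)) :
    AlgebraicIndependent ℂ (fun j => algebraMap (RR κ) K (c j)) ∧
    FiniteDimensional (IntermediateField.adjoin ℂ
      (Set.range fun j => algebraMap (RR κ) K (c j))) K := by
  constructor
  · have halg : Algebra.IsAlgebraic (Algebra.adjoin ℂ
      (Set.range fun j => algebraMap (RR κ) K (c j))) K := by
      constructor
      intro f
      obtain ⟨a, b, -, rfl⟩ := hfrac f
      rw [div_eq_mul_inv]
      exact (hint a).isAlgebraic.mul (hint b).isAlgebraic.inv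
    have hcard : Cardinal.mk (Fin n) = Algebra.trdeg ℂ K := hx.cardinalMk_eq_trdeg
    exact (Algebra.IsAlgebraic.isTranscendenceBasis_of_le_trdeg_of_finite ℂ
      (fun j => algebraMap (RR κ) K (c j)) hcard.le).1
  · set k := IntermediateField.adjoin ℂ (Set.range fun j => algebraMap (RR κ) K (c j)) with hk
    have hle : Algebra.adjoin ℂ (Set.range fun j => algebraMap (RR κ) K (c j)) ≤
        k.toSubalgebra := IntermediateField.algebra_adjoin_le_adjoin ℂ _
    have hintk : ∀ a : RR κ, IsIntegral k (algebraMap (RR κ) K a) := by
      intro a
      obtain ⟨p, hp, hpa⟩ := hint a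
      refine ⟨p.map (Subalgebra.inclusion hle).toRingHom, hp.map _, ?_⟩
      rw [Polynomial.eval₂_map]
      exact hpa
    have hfin : FiniteDimensional k (IntermediateField.adjoin k (Set.range (xb κ K))) := by
      apply IntermediateField.finiteDimensional_adjoin
      rintro _ ⟨i, rfl⟩
      exact hintk (X i)
    have htop : IntermediateField.adjoin k (Set.range (xb κ K)) = ⊤ := by
      rw [eq_top_iff]
      intro f _
      have hR : ∀ p : RR κ, algebraMap (RR κ) K p ∈
          IntermediateField.adjoin k (Set.range (xb κ K)) := by
        intro p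
        induction p using MvPolynomial.induction_on with
        | C a =>
          have : algebraMap (RR κ) K (C a) = algebraMap ℂ K a := by
            rw [IsScalarTower.algebraMap_apply ℂ (RR κ) K]; rfl
          rw [this, IsScalarTower.algebraMap_apply ℂ k K]
          exact (IntermediateField.adjoin k (Set.range (xb κ K))).algebraMap_mem _
        | add p q hp hq => rw [map_add]; exact add_mem hp hq
        | mul_X p i hp =>
          rw [map_mul]
          exact mul_mem hp (IntermediateField.subset_adjoin _ _ ⟨i, rfl⟩)
      obtain ⟨a, b, -, rfl⟩ := hfrac f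
      exact div_mem (hR a) (hR b)
    rw [htop] at hfin
    exact Module.Finite.equiv (IntermediateField.topEquiv (F := k) (E := K)).toLinearEquiv

end DUAL

end TI
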