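import Pool.Agent.Helper97.TI.Defs

/-!
Module K7 of MP_17e24e_ag: transitivity of the trace through `φ`.
-/

set_option autoImplicit false
open MvPolynomial

namespace TI

/-- transitivity of `trHom` -/
theorem K7_trHom_comp {k K L : Type} [Field k] [Field K] [Field L] (f : k →+* K) (g : K →+* L)
    (hf : f.Finite) (hg : g.Finite) (x : L) : trHom (g.comp f) x = trHom f (trHom g x) := by
  unfold trHom
  letI := f.toAlgebra
  letI := g.toAlgebra
  letI := (g.comp f).toAlgebra
  haveI : IsScalarTower k K L := IsScalarTower.of_algebraMap_eq' rfl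
  haveI : Module.Finite k K := hf
  haveI : Module.Finite K L := hg
  exact (Algebra.trace_trace (R := k) (S := K) (T := L) x).symm

/-- change of the base by an isomorphism -/
theorem K7_trHom_equiv {k k' L : Type} [Field k] [Field k'] [Field L] (e : k ≃+* k')
    (f : k →+* L) (f' : k' →+* L) (h : ∀ a, f' (e a) = f a) (x : L) :
    e (trHom f x) = trHom f' x := by
  unfold trHom
  letI := f.toAlgebra
  letI := f'.toAlgebra
  exact Algebra.trace_eq_of_ringEquiv e (by ext a; exact h a) x

section SYS
variable {κ d n : ℕ} {K : Type} [Field K] [Algebra ℂ K] [Algebra (RR κ) K]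
  [IsScalarTower ℂ (RR κ) K]

omit [IsScalarTower ℂ (RR κ) K] in
theorem K7_finite (S : Sys κ d n K) : (S.φ : K →+* K).Finite := by
  have h1 : (algebraMap S.φ.fieldRange K).Finite := S.fin
  have h2 : (S.φ.rangeRestrict : K →+* S.φ.range).Finite :=
    RingHom.Finite.of_surjective _ S.φ.rangeRestrict_surjective
  exact h1.comp h2

/-- K7: transitivity through `φ` -/
theorem trc_phi (S : Sys κ d n K) (c : Fin n → K)
    (hc : FiniteDimensional (IntermediateField.adjoin ℂ (Set.range c)) K) (x : K) :
    trc (fun j => S.φ (c j)) x = S.φ (trc c (trHom (S.φ : K →+* K) x)) := by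
  set k₁ := IntermediateField.adjoin ℂ (Set.range c) with hk₁
  have hmap : k₁.map S.φ = IntermediateField.adjoin ℂ (Set.range fun j => S.φ (c j)) := by
    rw [hk₁, IntermediateField.adjoin_map]
    congr 1
    rw [← Set.range_comp]
    rfl
  let e : k₁ ≃ₐ[ℂ] k₁.map S.φ := IntermediateField.equivMap k₁ S.φ
  have key : ((Algebra.trace (k₁.map S.φ) K x : k₁.map S.φ) : K) =
      S.φ (trc c (trHom (S.φ : K →+* K) x)) := by
    have h1 : (algebraMap k₁ K).Finite := hc
    have h3 := K7_trHom_comp (algebraMap k₁ K) (S.φ : K →+* K) h1 (K7_finite S) x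
    have h4 := K7_trHom_equiv (e : k₁ ≃+* k₁.map S.φ) ((S.φ : K →+* K).comp (algebraMap k₁ K))
      (algebraMap (k₁.map S.φ) K) (by intro a; rfl) x
    have h5 : trHom (algebraMap (k₁.map S.φ) K) x = Algebra.trace (k₁.map S.φ) K x := by
      unfold trHom
      congr
    have h6 : ∀ z : K, ((trHom (algebraMap k₁ K) z : k₁) : K) = trc c z := by
      intro z
      rfl
    rw [← h5, ← h4, h3]
    rw [← h6]
    rfl
  rw [← key]
  unfold trc
  rw [← hmap]

end SYS

end TI
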